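import Mathlib

set_option autoImplicit false

namespace Pool.Agent.H.MP_d26497_an

open MeasureTheory Complex Real
open scoped ComplexConjugate

/-- Gaussian measure on the plane -/
noncomputable def gam : Measure ℂ :=
  (MeasureTheory.volume : Measure ℂ).withDensity fun w => ENNReal.ofReal (rexp (-‖w‖ ^ 2))

instance : SFinite gam := by unfold gam; infer_instance

theorem meas_w : Measurable fun w : ℂ => ENNReal.ofReal (rexp (-‖w‖ ^ 2)) := by fun_prop

theorem integral_gam (f : ℂ → ℂ) :
    ∫ w, f w ∂gam = ∫ w : ℂ, ((rexp (-‖w‖ ^ 2) : ℝ) : ℂ) * f w := by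
  unfold gam
  rw [integral_withDensity_eq_integral_toReal_smul meas_w (by simp)]
  refine integral_congr_ae (Filter.Eventually.of_forall fun w => ?_)
  simp only
  rw [ENNReal.toReal_ofReal (Real.exp_pos _).le, Complex.real_smul]

theorem integrable_gam (f : ℂ → ℂ) :
    Integrable f gam ↔ Integrable fun w : ℂ => ((rexp (-‖w‖ ^ 2) : ℝ) : ℂ) * f w := by
  unfold gam
  rw [integrable_withDensity_iff_integrable_smul' meas_w (by simp)]
  refine integrable_congr (Filter.Eventually.of_forall fun w => ?_)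
  simp only
  rw [ENNReal.toReal_ofReal (Real.exp_pos _).le, Complex.real_smul]

theorem int_pow (k : ℕ) :
    ∫ w : ℂ, rexp (-‖w‖ ^ 2) * ‖w‖ ^ (2 * k) = π * k.factorial := by
  have := Complex.integral_rpow_mul_exp_neg_rpow (p := 2) (q := (2 * k : ℕ)) (by norm_num)
    (by have : (0 : ℝ) ≤ (2 * k : ℕ) := Nat.cast_nonneg _; linarith)
  have e : (((2 * k : ℕ) : ℝ) + 2) / 2 = k + 1 := by push_cast; ring
  rw [e, Real.Gamma_nat_eq_factorial] at this
  rw [show π * (k.factorial : ℝ) = 2 * π / 2 * k.factorial by ring, ← this]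
  refine integral_congr_ae (Filter.Eventually.of_forall fun w => ?_)
  simp only
  rw [Real.rpow_natCast, mul_comm, Real.rpow_two]

theorem intg_pow (k : ℕ) : Integrable fun w : ℂ => rexp (-‖w‖ ^ 2) * ‖w‖ ^ (2 * k) :=
  Integrable.of_integral_ne_zero (by rw [int_pow]; positivity)

theorem rot_mp (θ : ℝ) : MeasurePreserving (fun w : ℂ => cexp (θ * I) * w)
    MeasureTheory.volume MeasureTheory.volume := by
  have := (rotation (Circle.exp θ)).measurePreserving
  have e : (fun w : ℂ => cexp (θ * I) * w) = rotation (Circle.exp θ) := by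
    ext w; simp [rotation_apply]
  rw [e]; exact this

theorem circ (G : ℂ → ℂ) (hG : Differentiable ℂ G) (a : ℕ) (w : ℂ) :
    ∫ θ in (0 : ℝ)..2 * π, (conj (cexp (θ * I))) ^ a * G (cexp (θ * I) * w)
      = (2 * π / a.factorial) * (w ^ a * iteratedDeriv a G 0) := by
  have h := DiffContOnCl.circleIntegral_one_div_sub_center_pow_smul (f := fun z => G (w * z))
    (c := 0) (R := 1) one_pos a (by
      apply Differentiable.diffContOnCl; fun_prop)
  rw [iteratedDeriv_comp_const_mul (hG.contDiff.of_le le_top) w] at h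
  simp only [mul_zero, circleIntegral, deriv_circleMap, circleMap_zero, ofReal_one, one_mul,
    sub_zero, smul_eq_mul] at h
  have e : ∀ θ : ℝ, cexp (θ * I) * I * (1 / cexp (θ * I) ^ (a + 1) * G (w * cexp (θ * I))) =
      I * ((conj (cexp (θ * I))) ^ a * G (cexp (θ * I) * w)) := by
    intro θ
    have : conj (cexp (θ * I)) = (cexp (θ * I))⁻¹ := by
      rw [← Complex.exp_conj, ← Complex.exp_neg]; simp
    rw [this, mul_comm w, inv_pow]
    have := Complex.exp_ne_zero (θ * I)
    field_simp
    ring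
  simp_rw [e] at h
  rw [intervalIntegral.integral_const_mul] at h
  apply mul_left_cancel₀ I_ne_zero
  rw [h]; ring

theorem key (G : ℂ → ℂ) (hG : Differentiable ℂ G) (a : ℕ)
    (hi : Integrable (fun w => (conj w) ^ a * G w) gam) :
    ∫ w, (conj w) ^ a * G w ∂gam = π * iteratedDeriv a G 0 := by
  rw [integrable_gam] at hi
  rw [integral_gam]
  set f : ℂ → ℂ := fun w => ((rexp (-‖w‖ ^ 2) : ℝ) : ℂ) * ((conj w) ^ a * G w) with hf
  have hc : Continuous f := by have := hG.continuous; rw [hf]; fun_prop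
  have h1 : ∀ θ : ℝ, ∫ w, f (cexp (θ * I) * w) = ∫ w, f w := fun θ => by
    have := (rotation (Circle.exp θ)).measurePreserving.integral_comp
      (rotation (Circle.exp θ)).toHomeomorph.measurableEmbedding f
    rw [← this]; simp [rotation_apply]
  have h2 : Integrable (Function.uncurry fun (θ : ℝ) (w : ℂ) => f (cexp (θ * I) * w))
      ((MeasureTheory.volume.restrict (Set.uIoc 0 (2 * π))).prod MeasureTheory.volume) := by
    rw [integrable_prod_iff (by
      apply Continuous.aestronglyMeasurable
      exact hc.comp (by fun_prop))]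
    refine ⟨Filter.Eventually.of_forall fun θ => (rot_mp θ).integrable_comp_of_integrable hi, ?_⟩
    have : ∀ θ : ℝ, ∫ w, ‖f (cexp (θ * I) * w)‖ = ∫ w, ‖f w‖ := fun θ => by
      have := (rotation (Circle.exp θ)).measurePreserving.integral_comp
        (rotation (Circle.exp θ)).toHomeomorph.measurableEmbedding fun w => ‖f w‖
      rw [← this]; simp [rotation_apply]
    simp only [Function.uncurry, this]
    exact integrableOn_const (by simp [Set.uIoc])
  have h3 := intervalIntegral_integral_swap h2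
  simp only [h1, intervalIntegral.integral_const, sub_zero] at h3
  have h4 : ∀ w : ℂ, ∫ θ in (0 : ℝ)..2 * π, f (cexp (θ * I) * w) =
      ((rexp (-‖w‖ ^ 2) * ‖w‖ ^ (2 * a) : ℝ) : ℂ) *
        ((2 * π / a.factorial) * iteratedDeriv a G 0) := by
    intro w
    have : ∀ θ : ℝ, f (cexp (θ * I) * w) = (((rexp (-‖w‖ ^ 2) : ℝ) : ℂ) * (conj w) ^ a) *
        ((conj (cexp (θ * I))) ^ a * G (cexp (θ * I) * w)) := by
      intro θ
      simp only [hf, norm_mul, Complex.norm_exp_ofReal_mul_I, one_mul, map_mul, mul_pow]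
      ring
    simp_rw [this]
    rw [intervalIntegral.integral_const_mul, circ G hG]
    have : ((‖w‖ ^ (2 * a) : ℝ) : ℂ) = (conj w) ^ a * w ^ a := by
      rw [← mul_pow, Complex.conj_mul']; push_cast; ring
    rw [Complex.ofReal_mul, this]; ring
  simp_rw [h4] at h3
  rw [integral_mul_const, integral_complex_ofReal, int_pow] at h3
  have hp : (2 * π : ℂ) ≠ 0 := by simp [Real.pi_ne_zero]
  have hq : (a.factorial : ℂ) ≠ 0 := by simp [Nat.factorial_ne_zero]
  apply mul_left_cancel₀ hp
  rw [Complex.real_smul] at h3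
  push_cast at h3
  rw [h3]; field_simp

theorem intg_mono (c a : ℕ) : Integrable (fun w : ℂ => (conj w) ^ c * w ^ a) gam := by
  rw [integrable_gam]
  refine ((intg_pow c).add (intg_pow a)).mono' (by fun_prop)
    (Filter.Eventually.of_forall fun w => ?_)
  simp only [norm_mul, norm_pow, Complex.norm_real, Real.norm_eq_abs, RCLike.norm_conj,
    Pi.add_apply, abs_of_pos (Real.exp_pos _)]
  rw [← mul_add, mul_comm 2 c, mul_comm 2 a, pow_mul, pow_mul]
  refine mul_le_mul_of_nonneg_left ?_ (Real.exp_pos _).le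
  nlinarith [sq_nonneg (‖w‖ ^ c - ‖w‖ ^ a), pow_nonneg (norm_nonneg w) c,
    pow_nonneg (norm_nonneg w) a]

theorem int_mono (c a : ℕ) : ∫ w, (conj w) ^ c * w ^ a ∂gam =
    if c = a then (π * a.factorial : ℂ) else 0 := by
  rw [key (fun w => w ^ a) (by fun_prop) c (intg_mono c a), iteratedDeriv_fun_pow_zero]
  split_ifs with h1 <;> simp_all

end Pool.Agent.H.MP_d26497_an
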