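import Mathlib
import Pool.Agent.H.MP_d26497_an.A

set_option autoImplicit false

namespace Pool.Agent.H.MP_d26497_an

open MeasureTheory Complex Real Filter Topology
open scoped ComplexConjugate InnerProductSpace

/-- product Gaussian -/
noncomputable def gam2 : Measure (ℂ × ℂ) := (MeasureTheory.volume : Measure (ℂ × ℂ)).withDensity
    fun z => ENNReal.ofReal (rexp (-(‖z.1‖ ^ 2 + ‖z.2‖ ^ 2)))

theorem gam2_eq : gam2 = gam.prod gam := by
  unfold gam2 gam
  rw [prod_withDensity meas_w meas_w]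
  congr 1
  ext z
  rw [← ENNReal.ofReal_mul (Real.exp_pos _).le, ← Real.exp_add]; congr 2; ring

/-- iterated first partial derivative -/
noncomputable def D1 (F : ℂ × ℂ → ℂ) : ℕ → ℂ × ℂ → ℂ
  | 0 => F
  | a + 1 => fun z => fderiv ℂ (D1 F a) z (1, 0)

theorem D1_an {F : ℂ × ℂ → ℂ} (hF : AnalyticOnNhd ℂ F Set.univ) (a : ℕ) :
    AnalyticOnNhd ℂ (D1 F a) Set.univ := by
  induction a with
  | zero => exact hF
  | succ a ih =>
    exact fun z hz => ((ContinuousLinearMap.apply ℂ ℂ ((1 : ℂ), (0 : ℂ))).analyticAt _).comp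
      (ih.fderiv z hz)

theorem D1_diff {F : ℂ × ℂ → ℂ} (hF : AnalyticOnNhd ℂ F Set.univ) (a : ℕ) :
    Differentiable ℂ (D1 F a) := fun z => (D1_an hF a z trivial).differentiableAt

theorem D1_eq {F : ℂ × ℂ → ℂ} (hF : AnalyticOnNhd ℂ F Set.univ) (a : ℕ) (w : ℂ) :
    iteratedDeriv a (fun z => F (z, w)) = fun z => D1 F a (z, w) := by
  induction a with
  | zero => rfl
  | succ a ih =>
    rw [iteratedDeriv_succ, ih]
    ext z
    have h1 : HasDerivAt (fun z : ℂ => (z, w)) ((1 : ℂ), (0 : ℂ)) z :=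
      (hasDerivAt_id z).prodMk (hasDerivAt_const z w)
    exact ((D1_diff hF a (z, w)).hasFDerivAt.comp_hasDerivAt z h1).deriv

/-- Taylor coefficient numerators -/
noncomputable def co (F : ℂ × ℂ → ℂ) (i : ℕ × ℕ) : ℂ :=
  iteratedDeriv i.2 (fun w => D1 F i.1 (0, w)) 0

theorem key2 {F : ℂ × ℂ → ℂ} (hF : AnalyticOnNhd ℂ F Set.univ) (i : ℕ × ℕ)
    (hi : Integrable (fun z : ℂ × ℂ => (conj z.1) ^ i.1 * (conj z.2) ^ i.2 * F z) gam2) :
    ∫ z, (conj z.1) ^ i.1 * (conj z.2) ^ i.2 * F z ∂gam2 = π * (π * co F i) := by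
  rw [gam2_eq] at hi ⊢
  have hd := D1_diff hF 0
  have h1 : (fun w => ∫ z, (conj z) ^ i.1 * (conj w) ^ i.2 * F (z, w) ∂gam) =ᵐ[gam]
      fun w => π * ((conj w) ^ i.2 * D1 F i.1 (0, w)) := by
    filter_upwards [hi.prod_left_ae] with w hw
    have := key (fun z => (conj w) ^ i.2 * F (z, w))
      ((differentiable_const _).mul (hd.comp (by fun_prop))) i.1 (by simpa [mul_assoc] using hw)
    simp only [mul_assoc]
    rw [this, iteratedDeriv_const_mul_field, D1_eq hF]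
  rw [integral_prod_symm _ hi, integral_congr_ae h1, integral_const_mul]
  congr 1
  refine key (fun w => D1 F i.1 (0, w)) ((D1_diff hF i.1).comp (by fun_prop)) i.2 ?_
  have := (hi.integral_prod_right.congr h1).const_mul (π : ℂ)⁻¹
  refine this.congr (Eventually.of_forall fun w => ?_)
  have hp : (π : ℂ) ≠ 0 := by simp [Real.pi_ne_zero]
  simp only
  field_simp

theorem taylor2 {F : ℂ × ℂ → ℂ} (hF : AnalyticOnNhd ℂ F Set.univ) (z : ℂ × ℂ)
    (hs : Summable fun i : ℕ × ℕ =>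
      co F i / (i.1.factorial * i.2.factorial) * (z.1 ^ i.1 * z.2 ^ i.2)) :
    HasSum (fun i : ℕ × ℕ =>
      co F i / (i.1.factorial * i.2.factorial) * (z.1 ^ i.1 * z.2 ^ i.2)) (F z) := by
  have h1 := Complex.hasSum_taylorSeries_of_entire (f := fun x => F (x, z.2))
    ((D1_diff hF 0).comp (by fun_prop)) 0 z.1
  simp only [D1_eq hF, sub_zero, smul_eq_mul] at h1
  have h2 : ∀ a : ℕ, HasSum (fun b : ℕ =>
      co F (a, b) / (a.factorial * b.factorial) * (z.1 ^ a * z.2 ^ b))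
      ((a.factorial : ℂ)⁻¹ * (z.1 ^ a * D1 F a (0, z.2))) := by
    intro a
    have := (Complex.hasSum_taylorSeries_of_entire (f := fun x => D1 F a (0, x))
      ((D1_diff hF a).comp (by fun_prop)) 0 z.2).mul_left ((a.factorial : ℂ)⁻¹ * z.1 ^ a)
    simp only [sub_zero, smul_eq_mul] at this
    rw [← mul_assoc]
    refine this.congr_fun ?_
    intro b; simp only [co]; ring
  have h3 := hs.hasSum.prod_fiberwise h2
  rw [← h3.unique h1]
  exact hs.hasSum

theorem intg_mono2 (i j : ℕ × ℕ) : Integrable (fun z : ℂ × ℂ =>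
    ((conj z.1) ^ i.1 * z.1 ^ j.1) * ((conj z.2) ^ i.2 * z.2 ^ j.2)) gam2 := by
  rw [gam2_eq]; exact (intg_mono i.1 j.1).mul_prod (intg_mono i.2 j.2)

theorem int_mono2 (i j : ℕ × ℕ) : ∫ z : ℂ × ℂ,
    ((conj z.1) ^ i.1 * z.1 ^ j.1) * ((conj z.2) ^ i.2 * z.2 ^ j.2) ∂gam2 =
    if i = j then (π * i.1.factorial * (π * i.2.factorial) : ℂ) else 0 := by
  rw [gam2_eq, integral_prod_mul (fun x : ℂ => (conj x) ^ i.1 * x ^ j.1)
    (fun x : ℂ => (conj x) ^ i.2 * x ^ j.2), int_mono, int_mono]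
  by_cases h1 : i.1 = j.1 <;> by_cases h2 : i.2 = j.2 <;> simp [Prod.ext_iff, h1, h2]

/-- mixed monomials are square integrable -/
theorem mem_mono (i j : ℕ × ℕ) : MemLp (fun z : ℂ × ℂ =>
    ((conj z.1) ^ i.1 * z.1 ^ j.1) * ((conj z.2) ^ i.2 * z.2 ^ j.2)) 2 gam2 := by
  rw [memLp_two_iff_integrable_sq_norm (by fun_prop)]
  refine (intg_mono2 (i + j) (i + j)).norm.congr (Eventually.of_forall fun z => ?_)
  simp only [norm_mul, norm_pow, RCLike.norm_conj, Prod.fst_add, Prod.snd_add]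
  ring

end Pool.Agent.H.MP_d26497_an
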