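import Mathlib

set_option autoImplicit false

namespace Pool.Agent.H.MP_d26497_an

open Filter Topology
open scoped InnerProductSpace

variable {E ι : Type} [NormedAddCommGroup E] [InnerProductSpace ℂ E]

theorem clos (b : HilbertBasis ι ℂ E) (l : ι → ℂ) (G : Set (E × E))
    (h0 : 0 ∈ G) (ha : ∀ p ∈ G, ∀ q ∈ G, p + q ∈ G)
    (h1 : ∀ p ∈ G, ∀ i, ⟪b i, p.2⟫_ℂ = l i * ⟪b i, p.1⟫_ℂ)
    (h2 : ∀ i (c : ℂ), (c • b i, c • l i • b i) ∈ G) (p : E × E) :
    p ∈ closure G ↔ ∀ i, ⟪b i, p.2⟫_ℂ = l i * ⟪b i, p.1⟫_ℂ := by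
  constructor
  · intro hp i
    exact closure_minimal (t := {p : E × E | ⟪b i, p.2⟫_ℂ = l i * ⟪b i, p.1⟫_ℂ})
      (fun q hq => h1 q hq i) (isClosed_eq (by fun_prop) (by fun_prop)) hp
  · intro hp
    have t := (b.hasSum_repr p.1).prodMk (b.hasSum_repr p.2)
    refine mem_closure_of_tendsto t (Eventually.of_forall fun s => ?_)
    refine Finset.sum_induction _ (· ∈ G) (fun x y hx hy => ha x hx y hy) h0 fun i _ => ?_
    have := h2 i (b.repr p.1 i)
    rw [smul_smul] at this
    rw [b.repr_apply_apply p.2, hp, mul_comm, ← b.repr_apply_apply]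
    exact this

theorem res [CompleteSpace E] (b : HilbertBasis ι ℂ E) (l : ι → ℂ)
    (hs : Summable fun i => ‖l i‖) :
    ∃ R : E →L[ℂ] E, IsCompactOperator R ∧ ∀ g i, ⟪b i, R g⟫_ℂ = l i * ⟪b i, g⟫_ℂ := by
  classical
  let T : ι → E →L[ℂ] E := fun i => l i • (innerSL ℂ (b i)).smulRight (b i)
  have hT : Summable T := by
    refine Summable.of_norm_bounded hs fun i => ?_
    simp [T, norm_smul, b.orthonormal.1 i]
  have hc : ∀ i, IsCompactOperator (T i) := fun i => by
    have h1 : IsCompactOperator (innerSL ℂ (b i)) := isCompactOperator_of_locallyCompactSpace_dom _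
    have := (h1.clm_comp (ContinuousLinearMap.toSpanSingleton ℂ (l i • b i)))
    have e : ⇑(T i) = ⇑(ContinuousLinearMap.toSpanSingleton ℂ (l i • b i)) ∘ ⇑(innerSL ℂ (b i)) := by
      ext x
      simp [T, smul_smul, mul_comm]
    rw [e]; exact this
  refine ⟨∑' i, T i, isCompactOperator_of_tendsto hT.hasSum (Eventually.of_forall fun s => ?_),
    fun g i => ?_⟩
  · refine Finset.sum_induction _ (fun A : E →L[ℂ] E => IsCompactOperator A)
      (fun x y hx hy => hx.add hy) isCompactOperator_zero fun i _ => hc i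
  · have h1 := (hT.hasSum.mapL (ContinuousLinearMap.apply ℂ E g)).mapL (innerSL ℂ (b i))
    refine h1.unique ?_
    have := hasSum_single (f := fun j => innerSL ℂ (b i) (ContinuousLinearMap.apply ℂ E g (T j))) i
      (fun j hj => by simp [T, b.orthonormal.inner_eq_zero hj.symm])
    have e : l i * ⟪b i, g⟫_ℂ = innerSL ℂ (b i) (ContinuousLinearMap.apply ℂ E g (T i)) := by
      have := b.orthonormal.1 i
      simp [T, this]
    rw [e]; exact this

theorem nores (e : ℕ → E) (he : Orthonormal ℂ e) (R : E →L[ℂ] E) (hR : IsCompactOperator R)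
    (c : ℂ) : ¬ ∀ n, R (c • e n) = e n := by
  intro h
  have hK := hR.isCompact_closure_image_closedBall (f := (R : E →ₗ[ℂ] E)) ‖c‖
  obtain ⟨x, -, φ, hφ, t⟩ := hK.tendsto_subseq (x := e) fun n => subset_closure
    ⟨c • e n, by simp [norm_smul, he.1 n], h n⟩
  obtain ⟨N, hN⟩ := Metric.cauchySeq_iff.1 t.cauchySeq 1 one_pos
  have h1 := hN N le_rfl (N + 1) (Nat.le_succ N)
  have h2 := norm_inner_le_norm (𝕜 := ℂ) (e (φ N)) (e (φ N) - e (φ (N + 1)))
  rw [inner_sub_right, he.inner_eq_zero (hφ (Nat.lt_succ_self N)).ne] at h2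
  simp only [Function.comp, dist_eq_norm] at h1
  simp [he.1 (φ N)] at h2
  linarith

end Pool.Agent.H.MP_d26497_an
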