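import Mathlib
import Pool.Agent.H.MP_d26497_an.B
import Pool.Agent.H.MP_d26497_an.C

set_option autoImplicit false

namespace Pool.Agent.H.MP_d26497_an

open MeasureTheory Complex Real Filter Topology
open scoped ComplexConjugate InnerProductSpace

/-- the Fock space -/
noncomputable def Hs : Submodule ℂ (Lp ℂ 2 gam2) :=
  (Submodule.span ℂ {f : Lp ℂ 2 gam2 |
    ∃ F : ℂ × ℂ → ℂ, AnalyticOnNhd ℂ F Set.univ ∧ ⇑f =ᵐ[gam2] F}).topologicalClosure

/-- mixed monomial -/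
noncomputable def mo (i j : ℕ × ℕ) : Lp ℂ 2 gam2 := (mem_mono i j).toLp _

theorem mo_ae (i j : ℕ × ℕ) : ⇑(mo i j) =ᵐ[gam2] fun z : ℂ × ℂ =>
    ((conj z.1) ^ i.1 * z.1 ^ j.1) * ((conj z.2) ^ i.2 * z.2 ^ j.2) := MemLp.coeFn_toLp _

theorem inner_mo (i j k l : ℕ × ℕ) : ⟪mo i j, mo k l⟫_ℂ =
    if j + k = i + l then (π * (j + k).1.factorial * (π * (j + k).2.factorial) : ℂ) else 0 := by
  rw [← int_mono2, L2.inner_def]
  refine integral_congr_ae ?_
  filter_upwards [mo_ae i j, mo_ae k l] with z h1 h2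
  rw [h1, h2]
  simp only [RCLike.inner_apply, map_mul, map_pow, Complex.conj_conj, Prod.fst_add, Prod.snd_add]
  ring

/-- norm of a monomial -/
noncomputable def nr (i : ℕ × ℕ) : ℝ := π * (√i.1.factorial * √i.2.factorial)

theorem nr_pos (i : ℕ × ℕ) : 0 < nr i := by unfold nr; positivity

theorem nr_sq (i : ℕ × ℕ) :
    (nr i : ℂ) * nr i = π * i.1.factorial * (π * i.2.factorial) := by
  have h1 := Real.mul_self_sqrt (Nat.cast_nonneg (α := ℝ) i.1.factorial)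
  have h2 := Real.mul_self_sqrt (Nat.cast_nonneg (α := ℝ) i.2.factorial)
  have : nr i * nr i = π * i.1.factorial * (π * i.2.factorial) := by
    unfold nr
    linear_combination (π * π * (√i.2.factorial * √i.2.factorial)) * h1
      + (π * π * i.1.factorial) * h2
  exact_mod_cast this

/-- normalised monomial -/
noncomputable def ee (i : ℕ × ℕ) : Lp ℂ 2 gam2 := (nr i : ℂ)⁻¹ • mo 0 i

theorem ee_ae (i : ℕ × ℕ) : ⇑(ee i) =ᵐ[gam2] fun z : ℂ × ℂ =>
    (nr i : ℂ)⁻¹ * (z.1 ^ i.1 * z.2 ^ i.2) := by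
  filter_upwards [mo_ae 0 i, Lp.coeFn_smul (nr i : ℂ)⁻¹ (mo 0 i)] with z h1 h2
  rw [ee, h2, Pi.smul_apply, h1]; simp

theorem ee_mem (i : ℕ × ℕ) : ee i ∈ Hs :=
  Submodule.le_topologicalClosure _ (Submodule.subset_span ⟨_, fun _ _ =>
    analyticAt_const.mul ((analyticAt_fst.pow _).mul (analyticAt_snd.pow _)), ee_ae i⟩)

theorem ee_on : Orthonormal ℂ ee := by
  rw [orthonormal_iff_ite]
  intro i j
  have := (nr_pos i).ne'
  have h : (nr i : ℂ) ≠ 0 := by exact_mod_cast this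
  simp only [ee, inner_smul_left, inner_smul_right, inner_mo, add_zero, zero_add, map_inv₀,
    Complex.conj_ofReal]
  split_ifs with e
  · subst e; rw [← nr_sq]; field_simp
  · simp

theorem sum_sqrt (x : ℝ) : Summable fun a : ℕ => x ^ a / √a.factorial := by
  refine Summable.of_norm_bounded ((Real.summable_pow_div_factorial (4 * x ^ 2)).add
    (summable_geometric_of_lt_one (r := 1 / 4) (by norm_num) (by norm_num))) fun a => ?_
  have h1 := Real.mul_self_sqrt (Nat.cast_nonneg (α := ℝ) a.factorial)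
  have h2 : 0 < √(a.factorial : ℝ) := by positivity
  set s := √(a.factorial : ℝ)
  rw [← h1, Real.norm_eq_abs, abs_le]
  have e1 : (4 * x ^ 2) ^ a / (s * s) = ((2 : ℝ) ^ a * (x ^ a / s)) ^ 2 := by
    rw [show 4 * x ^ 2 = (2 * x) ^ 2 by ring, ← pow_mul, mul_comm 2 a, pow_mul, mul_pow]
    field_simp
  have e2 : ((1 : ℝ) / 4) ^ a = (((2 : ℝ) ^ a)⁻¹) ^ 2 := by
    rw [← inv_pow, ← pow_mul, mul_comm, pow_mul]; norm_num
  have e3 : (2 : ℝ) ^ a * (x ^ a / s) * ((2 : ℝ) ^ a)⁻¹ = x ^ a / s := by field_simp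
  rw [e1, e2]
  generalize (2 : ℝ) ^ a * (x ^ a / s) = u at e3 ⊢
  generalize ((2 : ℝ) ^ a)⁻¹ = v at e3 ⊢
  rw [← e3]
  constructor <;> nlinarith [sq_nonneg (u + v), sq_nonneg (u - v)]

theorem mem_clos (f : Lp ℂ 2 gam2) (F : ℂ × ℂ → ℂ) (hF : AnalyticOnNhd ℂ F Set.univ)
    (hf : ⇑f =ᵐ[gam2] F) : f ∈ (Submodule.span ℂ (Set.range ee)).topologicalClosure := by
  have hc : ∀ i, ⟪ee i, f⟫_ℂ = (nr i : ℂ)⁻¹ * (π * (π * co F i)) := by
    intro i
    have e : (fun z => ⟪(mo 0 i) z, f z⟫_ℂ) =ᵐ[gam2]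
        fun z : ℂ × ℂ => (conj z.1) ^ i.1 * (conj z.2) ^ i.2 * F z := by
      filter_upwards [mo_ae 0 i, hf] with z h1 h2
      rw [h1, h2]; simp; ring
    rw [ee, inner_smul_left, L2.inner_def, integral_congr_ae e,
      key2 hF i ((L2.integrable_inner (𝕜 := ℂ) _ _).congr e)]
    simp
  have ht : ∀ (i : ℕ × ℕ) (z : ℂ × ℂ), ⟪ee i, f⟫_ℂ * ((nr i : ℂ)⁻¹ * (z.1 ^ i.1 * z.2 ^ i.2)) =
      co F i / (i.1.factorial * i.2.factorial) * (z.1 ^ i.1 * z.2 ^ i.2) := by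
    intro i z
    have h : (nr i : ℂ) ≠ 0 := by exact_mod_cast (nr_pos i).ne'
    have h1 : (i.1.factorial : ℂ) ≠ 0 := by simp [Nat.factorial_ne_zero]
    have h2 : (i.2.factorial : ℂ) ≠ 0 := by simp [Nat.factorial_ne_zero]
    have := nr_sq i
    rw [hc]
    field_simp
    linear_combination (-co F i * z.1 ^ i.1 * z.2 ^ i.2) * this
  have hp : ∀ z : ℂ × ℂ, HasSum (fun i : ℕ × ℕ =>
      ⟪ee i, f⟫_ℂ * ((nr i : ℂ)⁻¹ * (z.1 ^ i.1 * z.2 ^ i.2))) (F z) := by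
    intro z
    simp only [ht]
    apply taylor2 hF
    simp only [← ht]
    have := (summable_mul_of_summable_norm (sum_sqrt ‖z.1‖).norm (sum_sqrt ‖z.2‖).norm).mul_left
      (‖f‖ * π⁻¹)
    refine Summable.of_norm_bounded this fun i => ?_
    have h := norm_inner_le_norm (𝕜 := ℂ) (ee i) f
    rw [ee_on.1 i, one_mul] at h
    rw [norm_mul]
    refine (mul_le_mul_of_nonneg_right h (norm_nonneg _)).trans (le_of_eq ?_)
    simp only [norm_mul, norm_inv, norm_pow, Complex.norm_real, Real.norm_eq_abs,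
      abs_of_pos (nr_pos i)]
    unfold nr
    field_simp
  have hs : Summable fun i => ⟪ee i, f⟫_ℂ • ee i := by
    have := (ee_on.orthogonalFamily.summable_iff_norm_sq_summable
      (fun i => ⟪ee i, f⟫_ℂ)).2 (ee_on.inner_products_summable f)
    simpa using this
  have h1 := hs.hasSum
  have h2 : (∑' i, ⟪ee i, f⟫_ℂ • ee i) ∈ (Submodule.span ℂ (Set.range ee)).topologicalClosure :=
    mem_closure_of_tendsto h1 (Eventually.of_forall fun s => Submodule.sum_mem _ fun i _ =>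
      Submodule.smul_mem _ _ (Submodule.subset_span ⟨i, rfl⟩))
  obtain ⟨ns, n1, n2⟩ := (tendstoInMeasure_of_tendsto_Lp h1).exists_seq_tendsto_ae'
  have h3 : ∀ s : Finset (ℕ × ℕ), ⇑(∑ i ∈ s, ⟪ee i, f⟫_ℂ • ee i) =ᵐ[gam2] fun z =>
      ∑ i ∈ s, ⟪ee i, f⟫_ℂ * ((nr i : ℂ)⁻¹ * (z.1 ^ i.1 * z.2 ^ i.2)) := by
    intro s
    induction s using Finset.induction_on with
    | empty => exact Lp.coeFn_zero ℂ 2 gam2
    | insert a s ha ih =>
      simp only [Finset.sum_insert ha]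
      filter_upwards [ih, Lp.coeFn_add (⟪ee a, f⟫_ℂ • ee a) (∑ i ∈ s, ⟪ee i, f⟫_ℂ • ee i),
        Lp.coeFn_smul ⟪ee a, f⟫_ℂ (ee a), ee_ae a] with z e1 e2 e3 e4
      rw [e2, Pi.add_apply, e1, e3, Pi.smul_apply, e4, smul_eq_mul]
  convert h2 using 1
  refine Lp.ext ?_
  filter_upwards [hf, n2, ae_all_iff.2 fun n => h3 (ns n)] with z e1 e2 e3
  rw [e1]
  simp only [e3] at e2
  exact tendsto_nhds_unique (Tendsto.comp (hp z) n1) e2

theorem orth (u : Lp ℂ 2 gam2) (hu : ∀ i, ⟪ee i, u⟫_ℂ = 0) : ∀ h ∈ Hs, ⟪h, u⟫_ℂ = 0 := by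
  have h1 : Hs ≤ (Submodule.span ℂ (Set.range ee)).topologicalClosure :=
    Submodule.topologicalClosure_minimal _ (Submodule.span_le.2 fun f ⟨F, a, b⟩ =>
      mem_clos f F a b) (Submodule.isClosed_topologicalClosure _)
  have h2 : (Submodule.span ℂ (Set.range ee)).topologicalClosure ≤ (ℂ ∙ u)ᗮ :=
    Submodule.topologicalClosure_minimal _ (Submodule.span_le.2 (by
      rintro _ ⟨i, rfl⟩
      exact Submodule.mem_orthogonal_singleton_iff_inner_left.2 (hu i)))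
      (Submodule.isClosed_orthogonal _)
  exact fun h hh => Submodule.mem_orthogonal_singleton_iff_inner_left.1 (h2 (h1 hh))

instance : CompleteSpace Hs := by unfold Hs; infer_instance

theorem vv_on : Orthonormal ℂ fun i => (⟨ee i, ee_mem i⟩ : Hs) := ee_on.codRestrict Hs ee_mem

/-- monomial basis -/
noncomputable def bb : HilbertBasis (ℕ × ℕ) ℂ Hs :=
  HilbertBasis.mkOfOrthogonalEqBot vv_on (by
    rw [eq_bot_iff]
    intro h hh
    have := orth h (fun i => hh ⟨ee i, ee_mem i⟩ (Submodule.subset_span ⟨i, rfl⟩)) h h.2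
    rw [inner_self_eq_zero] at this
    exact Subtype.ext this)

theorem bb_eq (i : ℕ × ℕ) : (bb i : Lp ℂ 2 gam2) = ee i := by
  simp [bb]

end Pool.Agent.H.MP_d26497_an
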