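import Mathlib
import Pool.Agent.H.MP_d26497_an.D

set_option autoImplicit false

namespace Pool.Agent.H.MP_d26497_an

open MeasureTheory Complex Real Filter Topology
open scoped ComplexConjugate InnerProductSpace

/-- graph -/
def gr (φ : ℂ × ℂ → ℂ) : Set (Hs × Hs) :=
  {p | ∃ u : Lp ℂ 2 gam2, (⇑u =ᵐ[gam2] fun z => φ z * (p.1 : Lp ℂ 2 gam2) z) ∧
    ∀ h ∈ Hs, ⟪h, u - p.2⟫_ℂ = 0}

theorem gr_zero (φ : ℂ × ℂ → ℂ) : 0 ∈ gr φ := by
  refine ⟨0, ?_, fun h _ => by simp⟩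
  filter_upwards [Lp.coeFn_zero ℂ 2 gam2] with z hz
  change (0 : Lp ℂ 2 gam2) z = φ z * (0 : Lp ℂ 2 gam2) z
  rw [hz]; simp

theorem gr_add (φ : ℂ × ℂ → ℂ) : ∀ p ∈ gr φ, ∀ q ∈ gr φ, p + q ∈ gr φ := by
  rintro p ⟨u, u1, u2⟩ q ⟨v, v1, v2⟩
  refine ⟨u + v, ?_, fun h hh => ?_⟩
  · filter_upwards [u1, v1, Lp.coeFn_add u v,
      Lp.coeFn_add (p.1 : Lp ℂ 2 gam2) (q.1 : Lp ℂ 2 gam2)] with z e1 e2 e3 e4
    rw [e3, Prod.fst_add, Submodule.coe_add, e4, Pi.add_apply, Pi.add_apply, e1, e2, mul_add]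
  · rw [Prod.snd_add, Submodule.coe_add, add_sub_add_comm, inner_add_right, u2 h hh, v2 h hh,
      add_zero]

theorem gr_smul (φ : ℂ × ℂ → ℂ) (c : ℂ) : ∀ p ∈ gr φ, c • p ∈ gr φ := by
  rintro p ⟨u, u1, u2⟩
  refine ⟨c • u, ?_, fun h hh => ?_⟩
  · filter_upwards [u1, Lp.coeFn_smul c u, Lp.coeFn_smul c (p.1 : Lp ℂ 2 gam2)] with z e1 e3 e4
    rw [e3, Prod.smul_fst, Submodule.coe_smul, e4, Pi.smul_apply, Pi.smul_apply, e1, smul_eq_mul,
      smul_eq_mul]; ring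
  · rw [Prod.smul_snd, Submodule.coe_smul, ← smul_sub, inner_smul_right, u2 h hh, mul_zero]

/-- eigenvalue -/
noncomputable def ev (i : ℕ × ℕ) : ℂ := ((i.1 + 1) * (i.1 + 2) * ((i.2 + 1) * (i.2 + 2)) : ℕ)

/-- leading symbol -/
noncomputable def ps (z : ℂ × ℂ) : ℂ := z.1 ^ 2 * z.2 ^ 2 * (conj z.1) ^ 2 * (conj z.2) ^ 2

theorem uu_ae (i : ℕ × ℕ) : ⇑((nr i : ℂ)⁻¹ • mo (2, 2) (i + (2, 2))) =ᵐ[gam2]
    fun z => ps z * ee i z := by
  filter_upwards [mo_ae (2, 2) (i + (2, 2)), Lp.coeFn_smul (nr i : ℂ)⁻¹ (mo (2, 2) (i + (2, 2))),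
    ee_ae i] with z e1 e2 e3
  rw [e2, Pi.smul_apply, e1, e3, ps]
  simp only [Prod.fst_add, Prod.snd_add, smul_eq_mul]; ring

theorem uu_orth (i : ℕ × ℕ) : ∀ h ∈ Hs,
    ⟪h, (nr i : ℂ)⁻¹ • mo (2, 2) (i + (2, 2)) - ev i • ee i⟫_ℂ = 0 := by
  refine orth _ fun j => ?_
  simp only [ee, inner_sub_right, inner_smul_left, inner_smul_right, inner_mo, add_zero, zero_add,
    add_left_inj]
  split_ifs with e
  · subst e
    simp only [ev, Prod.fst_add, Prod.snd_add, Nat.factorial_succ]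
    push_cast; ring
  · simp

theorem clos_ps (p : Hs × Hs) :
    p ∈ closure (gr ps) ↔ ∀ i, ⟪bb i, p.2⟫_ℂ = ev i * ⟪bb i, p.1⟫_ℂ := by
  refine clos bb ev _ (gr_zero _) (gr_add _) ?_ (fun i c => gr_smul ps c (bb i, ev i • bb i) ?_) p
  · rintro p ⟨u, u1, u2⟩ i
    have h1 := u2 _ (ee_mem i)
    have h2 := uu_orth i _ p.1.2
    rw [← inner_eq_zero_symm, inner_sub_left, inner_smul_left (ee i)] at h2
    rw [inner_sub_right] at h1
    have h3 : ⟪ee i, u⟫_ℂ = ⟪(nr i : ℂ)⁻¹ • mo (2, 2) (i + (2, 2)), (p.1 : Lp ℂ 2 gam2)⟫_ℂ := by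
      rw [L2.inner_def, L2.inner_def]
      refine integral_congr_ae ?_
      filter_upwards [u1, uu_ae i] with z e1 e2
      rw [e1, e2]
      simp only [ps, RCLike.inner_apply, map_mul, map_pow, Complex.conj_conj]
      ring
    rw [Submodule.coe_inner, Submodule.coe_inner, bb_eq]
    have h4 : conj (ev i) = ev i := by simp only [ev, map_natCast]
    rw [h4] at h2
    linear_combination h2 - h1 + h3
  · refine ⟨_, by simpa only [bb_eq] using uu_ae i, ?_⟩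
    simpa only [Submodule.coe_smul, bb_eq] using uu_orth i

theorem ev_ne (i : ℕ × ℕ) : ev i ≠ 0 := by
  unfold ev; exact Nat.cast_ne_zero.2 (by positivity)

theorem ev_sum : Summable fun i => ‖-(ev i)⁻¹‖ := by
  have h : Summable fun a : ℕ => (((a + 1 : ℕ) : ℝ) ^ 2)⁻¹ :=
    (summable_nat_add_iff (f := fun a : ℕ => ((a : ℝ) ^ 2)⁻¹) 1).2
      (Real.summable_nat_pow_inv.2 one_lt_two)
  refine Summable.of_nonneg_of_le (fun _ => norm_nonneg _) (fun i => ?_)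
    (h.mul_of_nonneg h (fun _ => by positivity) (fun _ => by positivity))
  rw [norm_neg, norm_inv, ev, Complex.norm_natCast, ← mul_inv]
  refine inv_anti₀ (by positivity) ?_
  push_cast
  gcongr <;> nlinarith [Nat.cast_nonneg (α := ℝ) i.1, Nat.cast_nonneg (α := ℝ) i.2]

theorem pos : ∃ (c : ℂ) (R : Hs →L[ℂ] Hs), IsCompactOperator R ∧ Function.Injective R ∧
    ∀ f g : Hs, (f, g) ∈ closure (gr ps) ↔ R (c • f - g) = f := by
  obtain ⟨R, r1, r2⟩ := res bb _ ev_sum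
  have ext : ∀ x y : Hs, (∀ i, ⟪bb i, x⟫_ℂ = ⟪bb i, y⟫_ℂ) → x = y := fun x y h =>
    bb.repr.injective (by ext i; simp only [HilbertBasis.repr_apply_apply, h])
  refine ⟨0, R, r1, fun x y h => ext x y fun i => ?_, fun f g => ?_⟩
  · have := r2 x i
    rw [h, r2] at this
    exact (mul_left_cancel₀ (by simp [ev_ne]) this).symm
  · rw [clos_ps]
    constructor
    · intro h
      refine ext _ _ fun i => ?_
      have := ev_ne i
      rw [r2, zero_smul, zero_sub, inner_neg_right, h]; field_simp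
    · intro h i
      have := ev_ne i
      have e := r2 ((0 : ℂ) • f - g) i
      rw [h, zero_smul, zero_sub, inner_neg_right] at e
      rw [e]; field_simp

theorem neg : ¬ ∃ (c : ℂ) (R : Hs →L[ℂ] Hs), IsCompactOperator R ∧ Function.Injective R ∧
    ∀ f g : Hs, (f, g) ∈ closure (gr fun z => ps z + -2 * (z.1 ^ 2 * (conj z.1) ^ 2)) ↔
      R (c • f - g) = f := by
  rintro ⟨c, R, r1, -, r2⟩
  refine nores (fun a => bb (a, 0)) (bb.orthonormal.comp _ fun a b h => congrArg Prod.fst h)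
    R r1 c fun a => ?_
  have := (r2 (bb (a, 0)) 0).1 (subset_closure ⟨(nr (a, 0) : ℂ)⁻¹ • mo (2, 2) ((a, 0) + (2, 2)) +
    (-2 * (nr (a, 0) : ℂ)⁻¹) • mo (2, 0) ((a, 0) + (2, 0)), ?_, ?_⟩)
  · simpa using this
  · filter_upwards [uu_ae (a, 0), mo_ae (2, 0) ((a, 0) + (2, 0)), ee_ae (a, 0),
      Lp.coeFn_smul (-2 * (nr (a, 0) : ℂ)⁻¹) (mo (2, 0) ((a, 0) + (2, 0))),
      Lp.coeFn_add ((nr (a, 0) : ℂ)⁻¹ • mo (2, 2) ((a, 0) + (2, 2)))
        ((-2 * (nr (a, 0) : ℂ)⁻¹) • mo (2, 0) ((a, 0) + (2, 0)))] with z e1 e2 e3 e4 e5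
    rw [e5, Pi.add_apply, e1, e4, Pi.smul_apply, e2, bb_eq, e3]
    simp only [Prod.fst_add, Prod.snd_add, smul_eq_mul]; ring
  · refine orth _ fun j => ?_
    simp only [ee, ZeroMemClass.coe_zero, sub_zero, inner_add_right, inner_smul_left,
      inner_smul_right, inner_mo, zero_add, add_left_inj]
    split_ifs with e
    · subst e
      simp only [Prod.fst_add, Prod.snd_add, Nat.factorial_succ]
      push_cast; simp; ring
    · simp

end Pool.Agent.H.MP_d26497_an
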